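import Pool.Agent.W610.HY.Stm2

/-!
# Project HY: the part ABV
-/

set_option autoImplicit false

namespace Pool.Agent.W690.HY.ABV

open Pool.Agent.W610.HY
open MeasureTheory Set Metric Filter Topology

/-- the measure on the angles -/
noncomputable abbrev mu : Measure ℝ := volume.restrict (Ioc (0:ℝ) (2 * Real.pi))

theorem ii {E : Type} [NormedAddCommGroup E] [NormedSpace ℝ E] (f : ℝ → E) :
    (∫ θ in (0:ℝ)..(2 * Real.pi), f θ) = ∫ θ, f θ ∂mu :=
  intervalIntegral.integral_of_le (by positivity)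

theorem cm1 (θ : ℝ) : ‖circleMap 0 1 θ‖ = 1 := by simp

theorem cmr {c : ℂ} {r : ℝ} (hr : 0 < r) (θ : ℝ) : ‖circleMap c r θ - c‖ = r := by
  rw [circleMap_sub_center, norm_circleMap_zero, abs_of_pos hr]

section res

variable {X : Type} [NormedAddCommGroup X] [NormedSpace ℂ X] (T S : X →L[ℂ] X)

theorem res_mul {z : ℂ} (hz : z ∈ resolventSet ℂ T) :
    resolvent T z * (algebraMap ℂ (X →L[ℂ] X) z - T) = 1 :=
  Ring.inverse_mul_cancel _ hz

theorem mul_res {z : ℂ} (hz : z ∈ resolventSet ℂ T) :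
    (algebraMap ℂ (X →L[ℂ] X) z - T) * resolvent T z = 1 :=
  Ring.mul_inverse_cancel _ hz

theorem res_id {z w : ℂ} (hz : z ∈ resolventSet ℂ T) (hw : w ∈ resolventSet ℂ T) :
    resolvent T w - resolvent T z = (z - w) • (resolvent T w * resolvent T z) := by
  have e1 : resolvent T w =
      resolvent T w * ((algebraMap ℂ (X →L[ℂ] X) z - T) * resolvent T z) := by
    rw [mul_res T hz, mul_one]
  have e2 : resolvent T z =
      (resolvent T w * (algebraMap ℂ (X →L[ℂ] X) w - T)) * resolvent T z := by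
    rw [res_mul T hw, one_mul]
  have e3 : resolvent T w - resolvent T z =
      resolvent T w * ((algebraMap ℂ (X →L[ℂ] X) z - T) * resolvent T z) -
      (resolvent T w * (algebraMap ℂ (X →L[ℂ] X) w - T)) * resolvent T z := by
    rw [← e1, ← e2]
  have e4 : (z - w) • (resolvent T w * resolvent T z) = resolvent T w *
      (algebraMap ℂ (X →L[ℂ] X) z - algebraMap ℂ (X →L[ℂ] X) w) * resolvent T z := by
    rw [Algebra.smul_def, ← mul_assoc, Algebra.commutes (z - w) (resolvent T w), map_sub]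
  rw [e3, e4]
  noncomm_ring

theorem res_comm {z : ℂ} (hz : z ∈ resolventSet ℂ T) (hS : S * T = T * S) :
    S * resolvent T z = resolvent T z * S := by
  have h1 : S * (algebraMap ℂ (X →L[ℂ] X) z - T) = (algebraMap ℂ (X →L[ℂ] X) z - T) * S := by
    rw [mul_sub, sub_mul, hS, Algebra.commutes]
  calc S * resolvent T z
      = (resolvent T z * (algebraMap ℂ (X →L[ℂ] X) z - T)) * (S * resolvent T z) := by
        rw [res_mul T hz, one_mul]
    _ = resolvent T z * ((algebraMap ℂ (X →L[ℂ] X) z - T) * S) * resolvent T z := by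
        simp only [mul_assoc]
    _ = resolvent T z * (S * (algebraMap ℂ (X →L[ℂ] X) z - T)) * resolvent T z := by rw [h1]
    _ = resolvent T z * S * ((algebraMap ℂ (X →L[ℂ] X) z - T) * resolvent T z) := by
        simp only [mul_assoc]
    _ = resolvent T z * S := by rw [mul_res T hz, mul_one]

/-- the scalar identity -/
theorem scal {z w : ℂ} (hz : z ∈ resolventSet ℂ T) (hw : w ∈ resolventSet ℂ T)
    (hS : S * T = T * S) (hzw : w - z ≠ 0) (x : X) (y : X →L[ℂ] ℂ) :
    y (resolvent T w (S (resolvent T z x))) =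
      (w - z)⁻¹ * (y (resolvent T z (S x)) - y (resolvent T w (S x))) := by
  have h1 : S (resolvent T z x) = resolvent T z (S x) := by
    have := res_comm T S hz hS
    exact congrArg (fun L : X →L[ℂ] X => L x) this
  have h2 := res_id T hz hw
  have h3 : resolvent T w (S x) - resolvent T z (S x) =
      (z - w) • (resolvent T w (resolvent T z (S x))) :=
    congrArg (fun L : X →L[ℂ] X => L (S x)) h2
  have h4 : y (resolvent T w (S x)) - y (resolvent T z (S x)) =
      (z - w) * y (resolvent T w (resolvent T z (S x))) := by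
    rw [← map_sub, h3, map_smul, smul_eq_mul]
  rw [h1]
  rw [← neg_sub (y (resolvent T w (S x))), h4]
  field_simp
  ring

end res

theorem aesm {E : Type} [NormedAddCommGroup E] (P : Set ℂ) (F : ℂ → E) (c : ℂ) (r : ℝ)
    (hP : IsOpen P) (hF : ContinuousOn F P) (h : ∀ᵐ θ ∂mu, circleMap c r θ ∈ P) :
    AEStronglyMeasurable (fun θ => F (circleMap c r θ)) mu := by
  have hA : IsOpen {θ : ℝ | circleMap c r θ ∈ P} := hP.preimage (continuous_circleMap c r)
  have hc : ContinuousOn (fun θ => F (circleMap c r θ)) {θ : ℝ | circleMap c r θ ∈ P} :=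
    hF.comp (continuous_circleMap c r).continuousOn fun θ hθ => hθ
  have h1 : mu.restrict {θ : ℝ | circleMap c r θ ∈ P} = mu := Measure.restrict_eq_self_of_ae_mem h
  rw [← h1]
  exact hc.aestronglyMeasurable hA.measurableSet

theorem integ {E : Type} [NormedAddCommGroup E] [NormedSpace ℂ E] (P : Set ℂ) (F : ℂ → E) (c : ℂ)
    (r : ℝ) (h : ℝ → ℂ) (hP : IsOpen P) (hF : ContinuousOn F P) (hg : GoodV P F c r h) :
    Integrable (fun θ => (h θ * circleMap 0 1 θ) • F (circleMap c r θ)) mu := by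
  refine Integrable.of_bound ?_ 1 ?_
  · exact ((hg.meas.mul (continuous_circleMap 0 1).measurable).aestronglyMeasurable).smul
      (aesm P F c r hP hF hg.res)
  · filter_upwards [hg.bound] with θ hθ
    rw [norm_smul, norm_mul, cm1, mul_one]
    exact hθ

theorem main : Pool.Agent.W610.HY.ABV := by
  intro X _ _ _ T S x y c₁ c₂ r₁ r₂ h₁ h₂ hS g₁ g₂ hr
  have hP : IsOpen (resolventSet ℂ T) := spectrum.isOpen_resolventSet T
  have hR : ContinuousOn (resolvent T) (resolventSet ℂ T) := fun z hz =>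
    (spectrum.hasDerivAt_resolvent_const_left hz).continuousAt.continuousWithinAt
  have hR1 : ContinuousOn (fun z => resolvent T z x) (resolventSet ℂ T) :=
    hR.clm_apply continuousOn_const
  have hR2 : ContinuousOn (fun z => y.comp (resolvent T z)) (resolventSet ℂ T) :=
    continuousOn_const.clm_comp hR
  have i1 := integ _ _ _ _ _ hP hR1 g₁
  have i2 := integ _ _ _ _ _ hP hR2 g₂
  have hr1 := g₁.pos
  have hr2 := g₂.pos
  set d : ℝ := ‖c₁ - c₂‖ - r₁ - r₂ with hd
  have hd0 : 0 < d := by linarith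
  have dist12 : ∀ θ φ, d ≤ ‖circleMap c₂ r₂ φ - circleMap c₁ r₁ θ‖ := by
    intro θ φ
    have e1 := cmr (c := c₁) hr1 θ
    have e2 := cmr (c := c₂) hr2 φ
    have e3 : c₁ - c₂ = -(circleMap c₁ r₁ θ - c₁) +
      (-(circleMap c₂ r₂ φ - circleMap c₁ r₁ θ) + (circleMap c₂ r₂ φ - c₂)) := by ring
    have e4 : ‖c₁ - c₂‖ ≤ ‖circleMap c₁ r₁ θ - c₁‖ +
      (‖circleMap c₂ r₂ φ - circleMap c₁ r₁ θ‖ + ‖circleMap c₂ r₂ φ - c₂‖) := by
      rw [e3]
      refine (norm_add_le _ _).trans ?_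
      rw [norm_neg]
      refine add_le_add le_rfl ((norm_add_le _ _).trans ?_)
      rw [norm_neg]
    linarith
  have dne : ∀ θ φ, circleMap c₂ r₂ φ - circleMap c₁ r₁ θ ≠ 0 := fun θ φ h => by
    have := dist12 θ φ
    rw [h, norm_zero] at this
    linarith
  have hinv : ∀ θ φ, ‖(circleMap c₂ r₂ φ - circleMap c₁ r₁ θ)⁻¹‖ ≤ d⁻¹ := fun θ φ => by
    rw [norm_inv]
    exact inv_anti₀ hd0 (dist12 θ φ)
  have out2 : ∀ θ, r₂ < ‖circleMap c₁ r₁ θ - c₂‖ := by
    intro θ
    have e1 := cmr (c := c₁) hr1 θ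
    have e3 : c₁ - c₂ = -(circleMap c₁ r₁ θ - c₁) + (circleMap c₁ r₁ θ - c₂) := by ring
    have e4 : ‖c₁ - c₂‖ ≤ ‖circleMap c₁ r₁ θ - c₁‖ + ‖circleMap c₁ r₁ θ - c₂‖ := by
      rw [e3]
      refine (norm_add_le _ _).trans ?_
      rw [norm_neg]
    linarith
  have out1 : ∀ φ, r₁ < ‖circleMap c₂ r₂ φ - c₁‖ := by
    intro φ
    have e1 := cmr (c := c₂) hr2 φ
    have e3 : c₁ - c₂ = -(circleMap c₂ r₂ φ - c₁) + (circleMap c₂ r₂ φ - c₂) := by ring
    have e4 : ‖c₁ - c₂‖ ≤ ‖circleMap c₂ r₂ φ - c₁‖ + ‖circleMap c₂ r₂ φ - c₂‖ := by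
      rw [e3]
      refine (norm_add_le _ _).trans ?_
      rw [norm_neg]
    linarith
  have B_apply : ∀ e : X, (IV (fun z => y.comp (resolvent T z)) c₂ r₂ h₂) e =
      ∫ φ, (h₂ φ * circleMap 0 1 φ) * y (resolvent T (circleMap c₂ r₂ φ) e) ∂mu := by
    intro e
    rw [IV, ii, ContinuousLinearMap.integral_apply i2]
    rfl
  -- the function of the second angle
  set q : ℝ → ℂ := fun φ => (h₂ φ * circleMap 0 1 φ) * y (resolvent T (circleMap c₂ r₂ φ) (S x))
    with hq
  have q_meas : AEStronglyMeasurable q mu := by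
    have h := (i2.aestronglyMeasurable.apply_continuousLinearMap (S x))
    exact h
  have q_bd : ∀ᵐ φ ∂mu, ‖q φ‖ ≤ ‖S x‖ := by
    filter_upwards [g₂.bound] with φ hφ
    rw [hq]
    dsimp only
    rw [norm_mul, norm_mul, cm1, mul_one]
    have e1 : ‖y (resolvent T (circleMap c₂ r₂ φ) (S x))‖ ≤
        ‖y.comp (resolvent T (circleMap c₂ r₂ φ))‖ * ‖S x‖ :=
      (y.comp (resolvent T (circleMap c₂ r₂ φ))).le_opNorm (S x)
    calc ‖h₂ φ‖ * ‖y (resolvent T (circleMap c₂ r₂ φ) (S x))‖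
        ≤ ‖h₂ φ‖ * (‖y.comp (resolvent T (circleMap c₂ r₂ φ))‖ * ‖S x‖) :=
          mul_le_mul_of_nonneg_left e1 (norm_nonneg _)
      _ = (‖h₂ φ‖ * ‖y.comp (resolvent T (circleMap c₂ r₂ φ))‖) * ‖S x‖ := by ring
      _ ≤ 1 * ‖S x‖ := mul_le_mul_of_nonneg_right hφ (norm_nonneg _)
      _ = ‖S x‖ := one_mul _
  have inner : ∀ᵐ θ ∂mu, (IV (fun z => y.comp (resolvent T z)) c₂ r₂ h₂)
      (S (resolvent T (circleMap c₁ r₁ θ) x)) =
      -∫ φ, (circleMap c₂ r₂ φ - circleMap c₁ r₁ θ)⁻¹ * q φ ∂mu := by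
    filter_upwards [g₁.res] with θ hθ
    rw [B_apply]
    have a1 : Integrable (fun φ => h₂ φ * (circleMap 0 1 φ /
        (circleMap c₂ r₂ φ - circleMap c₁ r₁ θ)) *
        y (resolvent T (circleMap c₁ r₁ θ) (S x))) mu := by
      refine Integrable.mul_const ?_ _
      refine Integrable.of_bound (Measurable.aestronglyMeasurable ?_) (d⁻¹) ?_
      · exact g₂.meas.mul ((continuous_circleMap 0 1).measurable.div
          ((continuous_circleMap c₂ r₂).measurable.sub_const _))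
      · filter_upwards [g₂.le_one] with φ hφ
        rw [norm_mul, div_eq_mul_inv, norm_mul, cm1, one_mul]
        calc ‖h₂ φ‖ * ‖(circleMap c₂ r₂ φ - circleMap c₁ r₁ θ)⁻¹‖ ≤ 1 * d⁻¹ :=
              mul_le_mul hφ (hinv θ φ) (norm_nonneg _) zero_le_one
          _ = d⁻¹ := one_mul _
    have a2 : Integrable (fun φ => (circleMap c₂ r₂ φ - circleMap c₁ r₁ θ)⁻¹ * q φ) mu := by
      refine Integrable.of_bound ?_ (d⁻¹ * ‖S x‖) ?_
      · exact (((continuous_circleMap c₂ r₂).measurable.sub_const _).inv.aestronglyMeasurable).mul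
          q_meas
      · filter_upwards [q_bd] with φ hφ
        rw [norm_mul]
        exact mul_le_mul (hinv θ φ) hφ (norm_nonneg _) (inv_nonneg.2 hd0.le)
    have a3 : ∫ φ, (h₂ φ * circleMap 0 1 φ) * y (resolvent T (circleMap c₂ r₂ φ)
        (S (resolvent T (circleMap c₁ r₁ θ) x))) ∂mu =
        ∫ φ, (h₂ φ * (circleMap 0 1 φ / (circleMap c₂ r₂ φ - circleMap c₁ r₁ θ)) *
          y (resolvent T (circleMap c₁ r₁ θ) (S x)) -
          (circleMap c₂ r₂ φ - circleMap c₁ r₁ θ)⁻¹ * q φ) ∂mu := by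
      refine integral_congr_ae ?_
      filter_upwards [g₂.res] with φ hφ
      rw [scal T S hθ hφ hS (dne θ φ)]
      rw [hq]
      ring
    rw [a3, integral_sub a1 a2, integral_mul_const]
    have a4 := g₂.van (circleMap c₁ r₁ θ) (out2 θ)
    rw [ii] at a4
    rw [a4, zero_mul, zero_sub]
  have step1 : (IV (fun z => y.comp (resolvent T z)) c₂ r₂ h₂)
      (S (IV (fun z => resolvent T z x) c₁ r₁ h₁)) =
      ∫ θ, -((h₁ θ * circleMap 0 1 θ) *
        ∫ φ, (circleMap c₂ r₂ φ - circleMap c₁ r₁ θ)⁻¹ * q φ ∂mu) ∂mu := by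
    set B := IV (fun z => y.comp (resolvent T z)) c₂ r₂ h₂ with hB
    have e0 : B (S (IV (fun z => resolvent T z x) c₁ r₁ h₁)) =
        (B.comp S) (∫ θ, (h₁ θ * circleMap 0 1 θ) • resolvent T (circleMap c₁ r₁ θ) x ∂mu) := by
      rw [IV, ii]
      rfl
    rw [e0, ← ContinuousLinearMap.integral_comp_comm _ i1]
    refine integral_congr_ae ?_
    filter_upwards [inner] with θ hθ
    rw [map_smul, smul_eq_mul, ContinuousLinearMap.comp_apply, hθ]
    ring
  rw [step1, integral_neg]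
  have swap : (∫ θ, (h₁ θ * circleMap 0 1 θ) *
        ∫ φ, (circleMap c₂ r₂ φ - circleMap c₁ r₁ θ)⁻¹ * q φ ∂mu ∂mu) = 
      ∫ φ, ∫ θ, (h₁ θ * circleMap 0 1 θ) *
        ((circleMap c₂ r₂ φ - circleMap c₁ r₁ θ)⁻¹ * q φ) ∂mu ∂mu := by
    rw [← integral_integral_swap]
    · refine integral_congr_ae (Eventually.of_forall fun θ => ?_)
      dsimp only
      rw [integral_const_mul]
    · refine Integrable.of_bound ?_ (d⁻¹ * ‖S x‖) ?_
      · have m1 : Measurable (fun p : ℝ × ℝ => h₁ p.1 * circleMap 0 1 p.1) :=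
          (g₁.meas.mul (continuous_circleMap 0 1).measurable).comp measurable_fst
        have m2 : Measurable (fun p : ℝ × ℝ => (circleMap c₂ r₂ p.2 - circleMap c₁ r₁ p.1)⁻¹) :=
          (((continuous_circleMap c₂ r₂).measurable.comp measurable_snd).sub
            ((continuous_circleMap c₁ r₁).measurable.comp measurable_fst)).inv
        have m3 : AEStronglyMeasurable (fun p : ℝ × ℝ => q p.2) (mu.prod mu) := q_meas.comp_snd
        exact m1.aestronglyMeasurable.mul (m2.aestronglyMeasurable.mul m3)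
      · have b1 : ∀ᵐ p ∂(mu.prod mu), ‖h₁ p.1‖ ≤ 1 :=
          Measure.quasiMeasurePreserving_fst.ae g₁.le_one
        have b2 : ∀ᵐ p ∂(mu.prod mu), ‖q p.2‖ ≤ ‖S x‖ :=
          Measure.quasiMeasurePreserving_snd.ae q_bd
        filter_upwards [b1, b2] with p hp1 hp2
        simp only [Function.uncurry]
        rw [norm_mul, norm_mul, norm_mul, cm1, mul_one]
        calc ‖h₁ p.1‖ * (‖(circleMap c₂ r₂ p.2 - circleMap c₁ r₁ p.1)⁻¹‖ * ‖q p.2‖)
            ≤ 1 * (d⁻¹ * ‖S x‖) := mul_le_mul hp1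
              (mul_le_mul (hinv _ _) hp2 (norm_nonneg _) (inv_nonneg.2 hd0.le))
              (by positivity) zero_le_one
          _ = d⁻¹ * ‖S x‖ := one_mul _
  rw [swap, neg_eq_zero]
  refine integral_eq_zero_of_ae (Eventually.of_forall fun φ => ?_)
  have e1 : ∀ θ, (h₁ θ * circleMap 0 1 θ) * ((circleMap c₂ r₂ φ - circleMap c₁ r₁ θ)⁻¹ * q φ) =
      (h₁ θ * (circleMap 0 1 θ / (circleMap c₁ r₁ θ - circleMap c₂ r₂ φ))) * (-q φ) := by
    intro θ
    rw [← neg_sub (circleMap c₁ r₁ θ) (circleMap c₂ r₂ φ), inv_neg]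
    ring
  dsimp only
  simp only [e1]
  rw [integral_mul_const]
  have a4 := g₁.van (circleMap c₂ r₂ φ) (out1 φ)
  rw [ii] at a4
  rw [a4, zero_mul]
  rfl

end Pool.Agent.W690.HY.ABV
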